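import Pool.Agent.H92.Q6

open MeasureTheory Pool.Agent.H92.Q

namespace Pool.Agent.Results.MP_eb4995_an.NotLS

/-- For every N at least 2 and every q in (2, 2*) there is a bounded connected open set with a
q-eigenvalue strictly between the first and all later Lusternik-Schnirelmann values. -/
theorem result : ∀ N : ℕ, 2 ≤ N → ∀ q : ℝ, 2 < q → ((N : ℝ) - 2) * q < 2 * N →
    ∃ Ω : Set (E N), IsOpen Ω ∧ Bornology.IsBounded Ω ∧ IsConnected Ω ∧
      ∃ lam ∈ QSpec Ω q, LS Ω q 1 < ENNReal.ofReal lam ∧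
        ∀ k : ℕ, 2 ≤ k → ENNReal.ofReal lam < LS Ω q k := by
  intro N hN q hq hqN
  simp only [spec_eq]
  exact not_LS hN hq hqN

end Pool.Agent.Results.MP_eb4995_an.NotLS
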